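import Pool.Agent.W2helper74.SOS.Stm4
import Pool.Agent.W2helper15.SOS.Bez
import Pool.Agent.W2helper4.SOS.K2
import Pool.Agent.W2helper12.SOS.J1
import Pool.Agent.W2helper17.SOS.DatAlg

/-!
# MP_ce7760_an : piece P5 (`Fill`, `DegTwo`)
-/

open MvPolynomial

namespace Pool.Agent.W2helper72.SOS

open Pool.Agent.W2helper74.SOS Pool.Agent.W2helper15.SOS

theorem eval_line (f : Pol 2) (c : ℂ) :
    Polynomial.eval c (aeval (![1, Polynomial.X] : Fin 2 → Polynomial ℂ) f) = eval ![1, c] f := by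
  induction f using MvPolynomial.induction_on with
  | C a => simp
  | add p q hp hq => rw [map_add, Polynomial.eval_add, map_add, hp, hq]
  | mul_X p i hp =>
    rw [map_mul, Polynomial.eval_mul, map_mul, hp, aeval_X, eval_X]
    congr 1
    fin_cases i <;> simp

/-- points of the plane up to scalars -/
theorem dir {a : ℕ} {f : Pol 2} (hf : f.IsHomogeneous a) (x : Fin 2 → ℂ) :
    (x 0 ≠ 0 → eval x f = x 0 ^ a * eval ![1, x 1 / x 0] f) ∧
    (x 0 = 0 → eval x f = x 1 ^ a * eval ![0, 1] f) := by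
  constructor
  · intro hx
    rw [← hom_eval hf (x 0) ![1, x 1 / x 0]]
    congr 2
    funext i
    fin_cases i
    · simp
    · simp [mul_div_cancel₀, hx]
  · intro hx
    rw [← hom_eval hf (x 1) ![0, 1]]
    congr 2
    funext i
    fin_cases i
    · simp [hx]
    · simp

/-- a binary form of positive degree has a nontrivial zero -/
theorem exists_zero {a : ℕ} {f : Pol 2} (hf : f.IsHomogeneous a) (ha : 1 ≤ a) :
    ∃ x : Fin 2 → ℂ, x ≠ 0 ∧ eval x f = 0 := by
  by_cases h0 : eval ![0, 1] f = 0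
  · exact ⟨![0, 1], fun h => by simpa using congrFun h 1, h0⟩
  set r : Polynomial ℂ := aeval (![1, Polynomial.X] : Fin 2 → Polynomial ℂ) f with hr
  have hdeg : r.degree ≠ 0 := by
    intro hd
    have hC := Polynomial.eq_C_of_degree_eq_zero hd
    set c := r.coeff 0 with hc
    have h1 : X 0 * (f - C c * X 0 ^ a) = 0 := by
      apply MvPolynomial.funext
      intro x
      rw [map_mul, eval_X, map_zero]
      by_cases hx : x 0 = 0
      · simp [hx]
      · rw [map_sub, (dir hf x).1 hx, ← eval_line, ← hr, hC]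
        simp [mul_comm]
    have h2 : f = C c * X 0 ^ a :=
      sub_eq_zero.1 ((mul_eq_zero.mp h1).resolve_left (X_ne_zero 0))
    apply h0
    rw [h2]
    simp
    right
    omega
  obtain ⟨c, hc⟩ := IsAlgClosed.exists_root r hdeg
  refine ⟨![1, c], fun h => by simpa using congrFun h 0, ?_⟩
  rw [← eval_line]
  exact hc

/-- a combination of forms without common zero avoiding the zeros of `u` -/
theorem exists_avoid (R D : ℕ) (q : Fin R → Pol 2) (hq : ∀ j, (q j).IsHomogeneous D)
    (hz : ∀ x : Fin 2 → ℂ, x ≠ 0 → ∃ j, eval x (q j) ≠ 0) (u : Pol 2) (hu : u.IsHomogeneous D)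
    (hu0 : u ≠ 0) : ∃ c : Fin R → ℂ, ∀ x : Fin 2 → ℂ, x ≠ 0 → eval x u = 0 →
      eval x (∑ j, c j • q j) ≠ 0 := by
  classical
  have hfin := fin_zeros hu hu0
  -- the functionals
  let φ : (Fin 2 → ℂ) → ((Fin R → ℂ) →ₗ[ℂ] ℂ) := fun x =>
    { toFun := fun c => ∑ j, c j * eval x (q j)
      map_add' := fun a b => by simp [add_mul, Finset.sum_add_distrib]
      map_smul' := fun a b => by simp [Finset.mul_sum, mul_assoc] }
  let s : Finset (Subspace ℂ (Fin R → ℂ)) :=
    insert (LinearMap.ker (φ ![0, 1])) (hfin.toFinset.image fun c => LinearMap.ker (φ ![1, c]))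
  have hker : ∀ x : Fin 2 → ℂ, x ≠ 0 → LinearMap.ker (φ x) ≠ ⊤ := by
    intro x hx h
    obtain ⟨j, hj⟩ := hz x hx
    apply hj
    have h1 : (Pi.single j 1 : Fin R → ℂ) ∈ LinearMap.ker (φ x) := by rw [h]; trivial
    rw [LinearMap.mem_ker] at h1
    simpa [φ, Pi.single_apply] using h1
  have htop : (⊤ : Subspace ℂ (Fin R → ℂ)) ∉ s := by
    intro h
    rw [Finset.mem_insert, Finset.mem_image] at h
    rcases h with h | ⟨c, -, h⟩
    · exact hker ![0, 1] (fun h => by simpa using congrFun h 1) h.symm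
    · exact hker ![1, c] (fun h => by simpa using congrFun h 0) h
  have h1 := Subspace.biUnion_ne_univ_of_top_notMem htop
  obtain ⟨c, hc⟩ := (Set.ne_univ_iff_exists_notMem _).1 h1
  refine ⟨c, fun x hx hux h2 => hc ?_⟩
  have hval : ∀ y : Fin 2 → ℂ, eval y (∑ j, c j • q j) = φ y c := by
    intro y
    simp [φ, smul_eval]
  have hhom : (∑ j, c j • q j).IsHomogeneous D := by
    refine IsHomogeneous.sum _ _ _ fun j _ => ?_
    exact (homogeneousSubmodule (Fin 2) ℂ D).smul_mem _ (hq j)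
  rw [Set.mem_iUnion₂]
  by_cases hx0 : x 0 = 0
  · refine ⟨LinearMap.ker (φ ![0, 1]), Finset.mem_insert_self _ _, ?_⟩
    show φ ![0, 1] c = 0
    rw [← hval]
    have h3 := (dir hhom x).2 hx0
    rw [h2] at h3
    have hx1 : x 1 ≠ 0 := by
      intro h
      apply hx
      funext i
      fin_cases i
      · exact hx0
      · exact h
    exact (mul_eq_zero.1 h3.symm).resolve_left (pow_ne_zero _ hx1)
  · refine ⟨LinearMap.ker (φ ![1, x 1 / x 0]), Finset.mem_insert_of_mem
      (Finset.mem_image.2 ⟨x 1 / x 0, ?_, rfl⟩), ?_⟩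
    · rw [Set.Finite.mem_toFinset]
      show eval ![1, x 1 / x 0] u = 0
      have h3 := (dir hu x).1 hx0
      rw [hux] at h3
      exact (mul_eq_zero.1 h3.symm).resolve_left (pow_ne_zero _ hx0)
    · show φ ![1, x 1 / x 0] c = 0
      rw [← hval]
      have h3 := (dir hhom x).1 hx0
      rw [h2] at h3
      exact (mul_eq_zero.1 h3.symm).resolve_left (pow_ne_zero _ hx0)

/-- binary forms without common zero are relatively prime -/
theorem relPrime {a : ℕ} {u v : Pol 2} (hu : u.IsHomogeneous a) (hu0 : u ≠ 0)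
    (h : ∀ x : Fin 2 → ℂ, x ≠ 0 → eval x u = 0 → eval x v ≠ 0) : IsRelPrime u v := by
  intro π h1 h2
  by_contra hnu
  obtain ⟨w, hw⟩ := h1
  obtain ⟨δ, b, hδ, -, -⟩ := W2helper4.SOS.isHomogeneous_of_mul (by rw [← hw]; exact hu0)
    (by rw [← hw]; exact hu)
  have hπ0 : π ≠ 0 := by
    rintro rfl
    exact hu0 (by rw [hw, zero_mul])
  have hδ1 : 1 ≤ δ := by
    by_contra h0
    have h0 : δ = 0 := by omega
    rw [h0] at hδ
    have h1 : π.totalDegree = 0 := Nat.le_zero.1 hδ.totalDegree_le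
    rw [MvPolynomial.totalDegree_eq_zero_iff_eq_C] at h1
    apply hnu
    rw [h1]
    refine (IsUnit.mk0 _ ?_).map C
    intro h2
    rw [h2, map_zero] at h1
    exact hπ0 h1
  obtain ⟨x, hx, hx0⟩ := exists_zero hδ hδ1
  apply h x hx
  · rw [hw, map_mul, hx0, zero_mul]
  · obtain ⟨w', hw'⟩ := h2
    rw [hw', map_mul, hx0, zero_mul]

/-- subspaces of forms of a given degree are finite dimensional -/
theorem fin_of_hom {n k : ℕ} (W : Submodule ℂ (Pol n)) (h : ∀ p ∈ W, p.IsHomogeneous k) :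
    Module.Finite ℂ W := by
  have h1 : Module.Finite ℂ (homogeneousSubmodule (Fin n) ℂ k) :=
    Module.Finite.iff_fg.2 (homogeneousSubmodule_fg _ _ k)
  exact Submodule.finiteDimensional_of_le (show W ≤ homogeneousSubmodule (Fin n) ℂ k from h)

theorem fill : Fill := by
  classical
  intro R D q hD hq hz
  obtain ⟨j₀, hj₀⟩ := hz ![1, 0] (fun h => by simpa using congrFun h 0)
  have hu0 : q j₀ ≠ 0 := by
    intro h
    apply hj₀
    rw [h, map_zero]
  obtain ⟨c, hc⟩ := exists_avoid R D q hq hz (q j₀) (hq j₀) hu0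
  set v : Pol 2 := ∑ j, c j • q j with hv
  have hrp : IsRelPrime (q j₀) v := relPrime (hq j₀) hu0 hc
  set W := Submodule.span ℂ
    {p : Pol 2 | ∃ j, ∃ g : Pol 2, g.IsHomogeneous (D - 1) ∧ p = q j * g} with hW
  have hWfin : Module.Finite ℂ W := by
    apply fin_of_hom (k := D + (D - 1))
    intro p hp
    have h1 : W ≤ homogeneousSubmodule (Fin 2) ℂ (D + (D - 1)) := by
      rw [hW, Submodule.span_le]
      rintro _ ⟨j, g, hg, rfl⟩
      exact (hq j).mul hg
    exact h1 hp
  -- forms of degree `D - 1`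
  let mon : Fin D → Pol 2 := fun i => monomial (Finsupp.single 0 (i : ℕ) + Finsupp.single 1 (D - 1 - i)) 1
  have hmonhom : ∀ i, (mon i).IsHomogeneous (D - 1) := by
    intro i
    apply isHomogeneous_monomial
    have := i.2
    rw [map_add, Finsupp.degree_single, Finsupp.degree_single]
    omega
  have hmonind : LinearIndependent ℂ mon := by
    have h1 : LinearIndependent ℂ (fun d : Fin 2 →₀ ℕ => (monomial d (1 : ℂ) : Pol 2)) := by
      have h2 := (MvPolynomial.basisMonomials (Fin 2) ℂ).linearIndependent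
      rwa [MvPolynomial.coe_basisMonomials] at h2
    refine h1.comp _ ?_
    intro i i' h
    have h2 := DFunLike.congr_fun h 0
    simp at h2
    exact Fin.ext h2
  let F : (Fin D → ℂ) →ₗ[ℂ] Pol 2 := Fintype.linearCombination ℂ mon
  have hF : ∀ a, F a = ∑ i, a i • mon i := fun a => rfl
  have hFinj : ∀ a, F a = 0 → a = 0 := by
    intro a ha
    have h1 := (Fintype.linearIndependent_iff.1 hmonind) a ha
    funext i
    exact h1 i
  have hFhom : ∀ a, (F a).IsHomogeneous (D - 1) := by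
    intro a
    rw [hF]
    refine IsHomogeneous.sum _ _ _ fun j _ => ?_
    exact (homogeneousSubmodule (Fin 2) ℂ (D - 1)).smul_mem _ (hmonhom j)
  let Φ : ((Fin D → ℂ) × (Fin D → ℂ)) →ₗ[ℂ] Pol 2 :=
    ((LinearMap.mulLeft ℂ (q j₀)).comp F).coprod ((LinearMap.mulLeft ℂ v).comp F)
  have hΦ : ∀ a b, Φ (a, b) = q j₀ * F a + v * F b := fun a b => rfl
  have hΦinj : Function.Injective Φ := by
    rw [injective_iff_map_eq_zero]
    rintro ⟨a, b⟩ hab
    rw [hΦ] at hab
    have h1 : q j₀ ∣ v * F b := by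
      refine ⟨- F a, ?_⟩
      linear_combination hab
    have h2 : q j₀ ∣ F b := hrp.dvd_of_dvd_mul_left h1
    have h3 : F b = 0 := by
      by_contra hne
      obtain ⟨w, hw⟩ := h2
      have hw0 : w ≠ 0 := by
        rintro rfl
        exact hne (by rw [hw, mul_zero])
      have h4 : (F b).totalDegree = D - 1 := (hFhom b).totalDegree hne
      have h5 : (q j₀).totalDegree = D := (hq j₀).totalDegree hu0
      have h6 : (F b).totalDegree = (q j₀).totalDegree + w.totalDegree := by
        rw [hw, totalDegree_mul_of_isDomain hu0 hw0]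
      omega
    rw [h3, mul_zero, add_zero] at hab
    have h4 := (mul_eq_zero.1 hab).resolve_left hu0
    rw [Prod.mk_eq_zero]
    exact ⟨hFinj a h4, hFinj b h3⟩
  have hle : LinearMap.range Φ ≤ W := by
    rintro _ ⟨⟨a, b⟩, rfl⟩
    rw [hΦ]
    refine W.add_mem (Submodule.subset_span ⟨j₀, F a, hFhom a, rfl⟩) ?_
    rw [hv, Finset.sum_mul]
    refine W.sum_mem fun j _ => ?_
    rw [smul_mul_assoc]
    exact W.smul_mem _ (Submodule.subset_span ⟨j, F b, hFhom b, rfl⟩)
  have h1 : Module.finrank ℂ (LinearMap.range Φ) = 2 * D := by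
    rw [LinearMap.finrank_range_of_inj hΦinj, Module.finrank_prod, Module.finrank_pi]
    simp
    ring
  rw [← h1]
  exact Submodule.finrank_mono hle

/-! ### degree two -/

theorem hom_res {n j k : ℕ} (T : Matrix (Fin n) (Fin j) ℂ) {p : Pol n} (hp : p.IsHomogeneous k) :
    (res T p).IsHomogeneous k := by
  have h1 : ∀ i, (lf (T i)).IsHomogeneous 1 := by
    intro i
    refine IsHomogeneous.sum _ _ _ fun l _ => ?_
    have h2 := (isHomogeneous_C (Fin j) (T i l)).mul (isHomogeneous_X ℂ l)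
    rwa [zero_add] at h2
  have h2 := hp.aeval (fun i => lf (T i)) h1
  rwa [one_mul] at h2

/-- binary forms of degree `k` have dimension at most `k + 1` -/
theorem finrank_binary (k : ℕ) : Module.finrank ℂ (homogeneousSubmodule (Fin 2) ℂ k) ≤ k + 1 := by
  classical
  let mon : Fin (k + 1) → Pol 2 :=
    fun i => monomial (Finsupp.single 0 (i : ℕ) + Finsupp.single 1 (k - i)) 1
  have hle : homogeneousSubmodule (Fin 2) ℂ k ≤ Submodule.span ℂ (Set.range mon) := by
    intro p hp
    rw [mem_homogeneousSubmodule] at hp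
    rw [p.as_sum]
    refine Submodule.sum_mem _ fun d hd => ?_
    have hdeg : d.degree = k := by
      by_contra h
      exact (mem_support_iff.1 hd) (hp.coeff_eq_zero h)
    have hsum : d 0 + d 1 = k := by
      rw [← hdeg, Finsupp.degree_eq_sum, Fin.sum_univ_two]
    have h1 : (monomial d (coeff d p) : Pol 2) = coeff d p • mon ⟨d 0, by omega⟩ := by
      have h2 : d = Finsupp.single 0 (d 0) + Finsupp.single 1 (k - d 0) := by
        refine Finsupp.ext fun i => ?_
        fin_cases i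
        · simp
        · simp
          omega
      rw [smul_monomial, smul_eq_mul, mul_one]
      exact congrArg (fun e => (monomial e (coeff d p) : Pol 2)) h2
    rw [h1]
    exact Submodule.smul_mem _ _ (Submodule.subset_span ⟨_, rfl⟩)
  have hfin : Module.Finite ℂ (Submodule.span ℂ (Set.range mon)) :=
    FiniteDimensional.span_of_finite ℂ (Set.finite_range _)
  refine (Submodule.finrank_mono hle).trans ?_
  have h2 := finrank_range_le_card (R := ℂ) mon
  rwa [Fintype.card_fin] at h2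

theorem exists_left_inv {n j : ℕ} (T : Matrix (Fin n) (Fin j) ℂ)
    (h : ∀ x : Fin j → ℂ, T.mulVec x = 0 → x = 0) : ∃ S : Matrix (Fin j) (Fin n) ℂ, S * T = 1 := by
  have h1 : LinearMap.ker T.mulVecLin = ⊥ := by
    rw [LinearMap.ker_eq_bot']
    intro x hx
    exact h x hx
  obtain ⟨g, hg⟩ := LinearMap.exists_leftInverse_of_injective _ h1
  refine ⟨LinearMap.toMatrix' g, ?_⟩
  have h2 : LinearMap.toMatrix' (g ∘ₗ T.mulVecLin) = 1 := by
    rw [hg, LinearMap.toMatrix'_id]
  rw [LinearMap.toMatrix'_comp] at h2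
  rw [← h2]
  congr 1
  exact (LinearMap.toMatrix'_toLin' T).symm

theorem degTwo (hPl : Pl) (hB : BezN) (hF : Fill) : DegTwo := by
  classical
  intro n m r D d hn hE2 hV2 hV3 hprime
  have hVhom : ∀ p ∈ d.V, p.IsHomogeneous (D + 1) := by
    have h1 : d.V ≤ homogeneousSubmodule (Fin n) ℂ (D + 1) := by
      rw [Dat.V, Submodule.span_le]
      rintro _ ⟨j, rfl⟩
      exact d.p_hom j
    exact h1
  have hEhom : ∀ p ∈ d.E, p.IsHomogeneous D := by
    have h1 : d.E ≤ homogeneousSubmodule (Fin n) ℂ D := by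
      rw [Dat.E, Submodule.span_le]
      rintro _ ⟨j, rfl⟩
      exact d.e_hom j
    exact h1
  have hEfin : Module.Finite ℂ d.E := fin_of_hom _ hEhom
  have hEr : 3 ≤ Module.finrank ℂ d.E := hE2.trans ((W2helper12.SOS.pB1 n d.E hEfin).2.2.1 2)
  have hrr : Module.finrank ℂ d.E = r := by
    rw [Dat.E, finrank_span_eq_card d.e_ind, Fintype.card_fin]
  have hr3 : 3 ≤ r := by omega
  have hD1 : 1 ≤ D := by
    by_contra h0
    have h0 : D = 0 := by omega
    have hle : d.E ≤ Submodule.span ℂ {(1 : Pol n)} := by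
      intro p hp
      have h1 := hEhom p hp
      rw [h0] at h1
      have h2 : p.totalDegree = 0 := Nat.le_zero.1 h1.totalDegree_le
      rw [MvPolynomial.totalDegree_eq_zero_iff_eq_C] at h2
      rw [Submodule.mem_span_singleton]
      refine ⟨coeff 0 p, ?_⟩
      conv_rhs => rw [h2]
      rw [smul_eq_C_mul, mul_one]
    have hfin1 : Module.Finite ℂ (Submodule.span ℂ {(1 : Pol n)}) :=
      FiniteDimensional.span_of_finite ℂ (Set.finite_singleton _)
    have h1 := Submodule.finrank_mono hle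
    have h2 := finrank_span_singleton (K := ℂ) (one_ne_zero (α := Pol n))
    omega
  have hene : ∀ i, d.e i ≠ 0 := fun i => d.e_ind.ne_zero i
  obtain ⟨T₁, hT₁⟩ := hB n r D d.e (by omega) d.e_hom ⟨⟨0, by omega⟩, hene _⟩ hprime
  have hinj : ∀ x : Fin 2 → ℂ, T₁.mulVec x = 0 → x = 0 := by
    intro x hx
    by_contra hx0
    obtain ⟨j, hj⟩ := hT₁ x hx0
    apply hj
    rw [hx]
    have h1 := hom_eval (d.e_hom j) 0 (0 : Fin n → ℂ)
    rw [zero_pow (by omega), zero_mul] at h1
    rw [← h1]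
    congr 2
    funext i
    simp
  obtain ⟨S, hS⟩ := exists_left_inv T₁ hinj
  set Y : Submodule ℂ (Pol n) := Submodule.span ℂ
    {p : Pol n | ∃ j, ∃ g : Pol n, g.IsHomogeneous (D - 1) ∧ p = d.e j * g} with hY
  have hYfin : Module.Finite ℂ Y := by
    apply fin_of_hom (k := D + (D - 1))
    have h1 : Y ≤ homogeneousSubmodule (Fin n) ℂ (D + (D - 1)) := by
      rw [hY, Submodule.span_le]
      rintro _ ⟨j, g, hg, rfl⟩
      exact (d.e_hom j).mul hg
    exact h1
  have hfill := hF r D (fun j => res T₁ (d.e j)) hD1 (fun j => hom_res T₁ (d.e_hom j))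
    (fun x hx => by
      obtain ⟨j, hj⟩ := hT₁ x hx
      exact ⟨j, by rw [W2helper12.SOS.eval_res]; exact hj⟩)
  have hYT : 2 * D ≤ mx Y 2 := by
    refine (hfill.trans ?_).trans (W2helper12.SOS.le_mx Y hYfin 2 T₁)
    have := W2helper12.SOS.finite_rs Y hYfin T₁
    refine Submodule.finrank_mono ?_
    rw [Submodule.span_le]
    rintro _ ⟨j, g, hg, rfl⟩
    refine ⟨d.e j * res S g, Submodule.subset_span ⟨j, res S g, hom_res S hg, rfl⟩, ?_⟩
    show res T₁ (d.e j * res S g) = _
    rw [map_mul]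
    congr 1
    have h1 := DFunLike.congr_fun (W2helper12.SOS.res_comp S T₁) g
    rw [hS, W2helper12.SOS.res_one] at h1
    exact h1
  obtain ⟨g₀, hgV, hgE⟩ := W2helper17.SOS.datAlg n m r D d
  obtain ⟨T, g, hYrk, hg⟩ := hPl n D g₀ Y hYfin hn (by rw [hgE]; exact hEhom)
    (by rw [hgV]; exact hVhom) (by rw [hgE]; exact hE2) (by rw [hgV]; exact hV2)
    (by rw [hgV]; exact hV3)
  rw [hgE] at hg
  have hres : ∀ j, ∃ q : Pol 2, q.IsHomogeneous 2 ∧ res T (d.e j) = g * q := fun j =>
    hg _ ⟨d.e j, Submodule.subset_span ⟨j, rfl⟩, rfl⟩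
  -- some restriction is not zero
  obtain ⟨j, hj⟩ : ∃ j, res T (d.e j) ≠ 0 := by
    by_contra hcon
    push Not at hcon
    have h1 : rs Y T = ⊥ := by
      rw [rs, hY, Submodule.map_span, Submodule.span_eq_bot]
      rintro _ ⟨_, ⟨j, g', -, rfl⟩, rfl⟩
      show res T (d.e j * g') = 0
      rw [map_mul, hcon j, zero_mul]
    have h2 : rk Y T = 0 := by rw [rk, h1, finrank_bot]
    omega
  obtain ⟨q, hq, hjq⟩ := hres j
  have hgq : g * q ≠ 0 := by rw [← hjq]; exact hj
  obtain ⟨a, b, ha, hb, hab⟩ := W2helper4.SOS.isHomogeneous_of_mul hgq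
    (by rw [← hjq]; exact hom_res T (d.e_hom j))
  have hb2 : b = 2 := hb.inj_right hq (right_ne_zero_of_mul hgq)
  have hYle : rs Y T ≤ (homogeneousSubmodule (Fin 2) ℂ (D + 1)).map (LinearMap.mulLeft ℂ g) := by
    rw [rs, hY, Submodule.map_span, Submodule.span_le]
    rintro _ ⟨_, ⟨i, g', hg', rfl⟩, rfl⟩
    obtain ⟨q', hq', hiq⟩ := hres i
    refine ⟨q' * res T g', ?_, ?_⟩
    · have h1 := hq'.mul (hom_res T hg')
      have h2 : 2 + (D - 1) = D + 1 := by omega
      rw [h2] at h1
      exact h1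
    · show g * (q' * res T g') = res T (d.e i * g')
      rw [map_mul, hiq, mul_assoc]
  have hfinH : Module.Finite ℂ (homogeneousSubmodule (Fin 2) ℂ (D + 1)) :=
    fin_of_hom _ (fun p hp => hp)
  have h1 : rk Y T ≤ D + 2 := by
    refine (Submodule.finrank_mono hYle).trans ?_
    exact (Submodule.finrank_map_le _ _).trans (finrank_binary (D + 1))
  omega

end Pool.Agent.W2helper72.SOS
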